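import Mathlib

set_option autoImplicit false

namespace Pool.Agent.W_MP_cf7092_nt

open Equiv Finset

variable (p : ℕ) [hp : Fact p.Prime]

/-- entry `|a - b|` of representatives, read in `ZMod p` -/
def ent (a b : ZMod p) : ZMod p := ((|((a.val : ℕ) : ℤ) - ((b.val : ℕ) : ℤ)| : ℤ) : ZMod p)

/-- sign `-1` at the last residue and `1` elsewhere -/
def tau (a : ZMod p) : ZMod p := if a + 1 = 0 then -1 else 1

lemma tau_sq (a : ZMod p) : tau p a * tau p a = 1 := by
  unfold tau; split_ifs <;> simp

lemma ent_shift (a b : ZMod p) : ent p (a + 1) (b + 1) = tau p a * tau p b * ent p a b := by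
  have hp1 : 1 < p := hp.out.one_lt
  have : NeZero p := ⟨hp.out.ne_zero⟩
  have key : ∀ a : ZMod p, (a + 1 = 0 ∧ a.val = p - 1) ∨ (a + 1 ≠ 0 ∧ (a + 1).val = a.val + 1) := by
    intro a
    by_cases h : a + 1 = 0
    · left
      refine ⟨h, ?_⟩
      have : a = -1 := by linear_combination h
      subst this
      have := ZMod.val_neg_one (p - 1)
      obtain ⟨q, rfl⟩ : ∃ q, p = q + 1 := ⟨p - 1, by omega⟩
      simp
    · right
      refine ⟨h, ?_⟩
      have h1 : a.val < p := ZMod.val_lt a
      have h2 : a.val + 1 < p := by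
        by_contra hcon
        have h3 : a.val + 1 = p := by omega
        apply h
        have : ((a.val + 1 : ℕ) : ZMod p) = 0 := by rw [h3]; simp
        simpa using this
      have : (a + 1 : ZMod p) = ((a.val + 1 : ℕ) : ZMod p) := by simp
      rw [this, ZMod.val_natCast, Nat.mod_eq_of_lt h2]
  have hlt : ∀ a : ZMod p, a.val < p := fun a => ZMod.val_lt a
  have hcast : ((p : ℕ) : ZMod p) = 0 := by simp
  have hcastv : ∀ a : ZMod p, ((a.val : ℕ) : ZMod p) = a := fun a => by simp
  rcases key a with ⟨ha0, hav⟩ | ⟨ha0, hav⟩ <;> rcases key b with ⟨hb0, hbv⟩ | ⟨hb0, hbv⟩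
  · have hab : a = b := by linear_combination ha0 - hb0
    subst hab
    simp [ent]
  · have h1 : tau p a = -1 := by simp [tau, ha0]
    have h2 : tau p b = 1 := by simp [tau, hb0]
    have h3 := hlt b
    have hb2 : b.val + 1 < p := by have := hlt (b + 1); omega
    have h4 : ent p (a + 1) (b + 1) = b + 1 := by
      unfold ent
      rw [ha0, hbv, ZMod.val_zero]
      rw [abs_of_nonpos (by push_cast; omega)]
      push_cast
      rw [hcastv]
      ring
    have h5 : ent p a b = a - b := by
      unfold ent
      rw [abs_of_nonneg (by omega)]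
      push_cast
      rw [hcastv, hcastv]
    rw [h1, h2, h4, h5]
    linear_combination ha0
  · have h1 : tau p b = -1 := by simp [tau, hb0]
    have h2 : tau p a = 1 := by simp [tau, ha0]
    have h3 := hlt a
    have hb2 : a.val + 1 < p := by have := hlt (a + 1); omega
    have h4 : ent p (a + 1) (b + 1) = a + 1 := by
      unfold ent
      rw [hb0, hav, ZMod.val_zero]
      rw [abs_of_nonneg (by push_cast; omega)]
      push_cast
      rw [hcastv]
      ring
    have h5 : ent p a b = b - a := by
      unfold ent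
      rw [abs_of_nonpos (by omega)]
      push_cast
      rw [hcastv, hcastv]
      ring
    rw [h1, h2, h4, h5]
    linear_combination hb0
  · have h1 : tau p a = 1 := by simp [tau, ha0]
    have h2 : tau p b = 1 := by simp [tau, hb0]
    have h4 : ent p (a + 1) (b + 1) = ent p a b := by
      unfold ent
      rw [hav, hbv]
      congr 2
      push_cast
      ring
    rw [h1, h2, h4]
    ring

/-- the weight of a permutation -/
def w (s : Perm (ZMod p)) : ZMod p := ∏ j, ent p (s j) j

/-- conjugation by the translation by `t` -/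
def cj (t : ZMod p) (s : Perm (ZMod p)) : Perm (ZMod p) :=
  (Equiv.addRight t) * s * (Equiv.addRight t)⁻¹

lemma cj_apply (t : ZMod p) (s : Perm (ZMod p)) (x : ZMod p) :
    cj p t s x = s (x - t) + t := by
  simp [cj, Perm.mul_apply, sub_eq_add_neg]

lemma cj_zero (s : Perm (ZMod p)) : cj p 0 s = s := by
  ext x; simp [cj_apply]

lemma cj_add (t u : ZMod p) (s : Perm (ZMod p)) : cj p (t + u) s = cj p t (cj p u s) := by
  ext x
  rw [cj_apply, cj_apply, cj_apply]
  rw [show x - (t + u) = x - t - u by ring]
  ring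

lemma w_cj_one (s : Perm (ZMod p)) : w p (cj p 1 s) = w p s := by
  unfold w
  rw [← Equiv.prod_comp (Equiv.addRight (1 : ZMod p))]
  have : ∀ j : ZMod p, ent p ((cj p 1 s) (Equiv.addRight 1 j)) (Equiv.addRight 1 j)
      = tau p (s j) * tau p j * ent p (s j) j := by
    intro j
    rw [cj_apply]
    simp only [Equiv.coe_addRight]
    rw [add_sub_cancel_right, ent_shift]
  rw [Finset.prod_congr rfl (fun j _ => this j)]
  rw [Finset.prod_mul_distrib, Finset.prod_mul_distrib, Equiv.prod_comp s (fun j => tau p j),
    ← Finset.prod_mul_distrib]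
  rw [Finset.prod_congr rfl (fun j _ => tau_sq p j)]
  simp

lemma w_cj (t : ZMod p) (s : Perm (ZMod p)) : w p (cj p t s) = w p s := by
  have : NeZero p := ⟨hp.out.ne_zero⟩
  have h : ∀ n : ℕ, w p (cj p (n : ZMod p) s) = w p s := by
    intro n
    induction n with
    | zero => simp [cj_zero]
    | succ n ih =>
      have : ((n + 1 : ℕ) : ZMod p) = 1 + (n : ZMod p) := by push_cast; ring
      rw [this, cj_add, w_cj_one, ih]
  have := h t.val
  simpa using this

/-- the level sets of the weight -/
def Lev (v : ZMod p) : Type := {s : Perm (ZMod p) // w p s = v}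

instance (v : ZMod p) : Finite (Lev p v) := by
  have : NeZero p := ⟨hp.out.ne_zero⟩
  unfold Lev; infer_instance

instance (v : ZMod p) : MulAction (Multiplicative (ZMod p)) (Lev p v) where
  smul t s := ⟨cj p t.toAdd s.1, by rw [w_cj, s.2]⟩
  one_smul s := Subtype.ext (cj_zero p s.1)
  mul_smul t u s := Subtype.ext (cj_add p t.toAdd u.toAdd s.1)

lemma smul_val (v : ZMod p) (t : Multiplicative (ZMod p)) (s : Lev p v) :
    (t • s).1 = cj p t.toAdd s.1 := rfl

/-- the fixed permutations are the translations -/
lemma fixed_iff (s : Perm (ZMod p)) :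
    (∀ t, cj p t s = s) ↔ s = Equiv.addRight (s 0) := by
  constructor
  · intro h
    ext x
    have h1 := h x
    have h2 : cj p x s x = s x := by rw [h1]
    rw [cj_apply, sub_self] at h2
    simp only [Equiv.coe_addRight]
    rw [← h2]; ring
  · intro h t
    ext x
    rw [cj_apply]
    have h3 : ∀ y, s y = y + s 0 := by
      intro y
      conv_lhs => rw [h]
      simp
    rw [h3 (x - t), h3 x]
    ring

/-- number of fixed points inside a level set = number of shifts with that weight -/
lemma card_fixed (v : ZMod p) :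
    Nat.card (MulAction.fixedPoints (Multiplicative (ZMod p)) (Lev p v))
      = Nat.card {k : ZMod p // w p (Equiv.addRight k) = v} := by
  apply Nat.card_congr
  refine
    { toFun := fun s => ⟨s.1.1 0, ?_⟩
      invFun := fun k => ⟨⟨Equiv.addRight k.1, k.2⟩, ?_⟩
      left_inv := ?_
      right_inv := ?_ }
  · have hs : ∀ t, cj p t s.1.1 = s.1.1 := by
      intro t
      have := s.2 (Multiplicative.ofAdd t)
      have := congrArg Subtype.val this
      exact this
    rw [← (fixed_iff p s.1.1).1 hs]
    exact s.1.2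
  · intro t
    apply Subtype.ext
    exact (fixed_iff p (Equiv.addRight k.1)).2 (by simp) _
  · intro s
    apply Subtype.ext
    apply Subtype.ext
    have hs : ∀ t, cj p t s.1.1 = s.1.1 := by
      intro t
      have := s.2 (Multiplicative.ofAdd t)
      have := congrArg Subtype.val this
      exact this
    exact ((fixed_iff p s.1.1).1 hs).symm
  · intro k
    apply Subtype.ext
    simp

lemma sum_w : ∑ s : Perm (ZMod p), w p s = ∑ k : ZMod p, w p (Equiv.addRight k) := by
  have : NeZero p := ⟨hp.out.ne_zero⟩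
  classical
  have h1 : ∀ v : ZMod p, ((Nat.card (Lev p v) : ℕ) : ZMod p)
      = ((Nat.card {k : ZMod p // w p (Equiv.addRight k) = v} : ℕ) : ZMod p) := by
    intro v
    rw [← card_fixed]
    have hG : IsPGroup p (Multiplicative (ZMod p)) :=
      IsPGroup.of_card (n := 1) (by simp)
    exact (ZMod.natCast_eq_natCast_iff _ _ _).2 (hG.card_modEq_card_fixedPoints (Lev p v))
  have h2 : ∑ s : Perm (ZMod p), w p s = ∑ v : ZMod p, ((Nat.card (Lev p v) : ℕ) : ZMod p) * v := by
    rw [← Finset.sum_fiberwise (s := Finset.univ) (g := fun s => w p s)]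
    apply Finset.sum_congr rfl
    intro v _
    rw [Finset.sum_congr rfl (g := fun _ => v) (by intro s hs; simpa using hs)]
    rw [Finset.sum_const, nsmul_eq_mul]
    congr 2
    unfold Lev
    rw [Nat.card_eq_fintype_card, Fintype.card_subtype]
  have h3 : ∑ k : ZMod p, w p (Equiv.addRight k)
      = ∑ v : ZMod p, ((Nat.card {k : ZMod p // w p (Equiv.addRight k) = v} : ℕ) : ZMod p) * v := by
    rw [← Finset.sum_fiberwise (s := Finset.univ) (g := fun k => w p (Equiv.addRight k))]
    apply Finset.sum_congr rfl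
    intro v _
    rw [Finset.sum_congr rfl (g := fun _ => v) (by intro s hs; simpa using hs)]
    rw [Finset.sum_const, nsmul_eq_mul]
    congr 2
    rw [Nat.card_eq_fintype_card, Fintype.card_subtype]
  rw [h2, h3]
  apply Finset.sum_congr rfl
  intro v _
  rw [h1]

lemma w_shift (k : ZMod p) : w p (Equiv.addRight k) = (-1) ^ k.val * k := by
  have hpz : NeZero p := ⟨hp.out.ne_zero⟩
  have hcastv : ∀ a : ZMod p, ((a.val : ℕ) : ZMod p) = a := fun a => by simp
  have hcast : ((p : ℕ) : ZMod p) = 0 := by simp
  have hk : k.val < p := ZMod.val_lt k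
  have hent : ∀ j : ZMod p, ent p (j + k) j
      = (if j.val < p - k.val then (1 : ZMod p) else -1) * k := by
    intro j
    have hj : j.val < p := ZMod.val_lt j
    split_ifs with h
    · have h1 : (j + k).val = j.val + k.val := ZMod.val_add_of_lt (by omega)
      unfold ent
      rw [h1, abs_of_nonneg (by push_cast; omega)]
      push_cast
      rw [hcastv, hcastv]
      ring
    · have h1 : (j + k).val + p = j.val + k.val := ZMod.val_add_val_of_le (by omega) |>.symm
      unfold ent
      have h2 : (j + k).val = j.val + k.val - p := by omega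
      rw [abs_of_nonpos (by omega)]
      push_cast
      rw [hcastv, hcastv]
      ring
  have hsplit : w p (Equiv.addRight k)
      = (∏ j : ZMod p, (if j.val < p - k.val then (1 : ZMod p) else -1)) * k ^ p := by
    unfold w
    have hent2 : ∀ j : ZMod p, ent p ((Equiv.addRight k) j) j
        = (if j.val < p - k.val then (1 : ZMod p) else -1) * k := fun j => hent j
    rw [Finset.prod_congr rfl (fun j _ => hent2 j)]
    rw [Finset.prod_mul_distrib, Finset.prod_const, Finset.card_univ, ZMod.card]
  rw [hsplit, ZMod.pow_card]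
  congr 1
  have hrange : (∏ j : ZMod p, (if j.val < p - k.val then (1 : ZMod p) else -1))
      = ∏ i ∈ Finset.range p, (if i < p - k.val then (1 : ZMod p) else -1) := by
    rw [← Fin.prod_univ_eq_prod_range (fun i => if i < p - k.val then (1 : ZMod p) else -1) p]
    refine Fintype.prod_equiv (ZMod.finEquiv p).toEquiv.symm _ _ ?_
    intro x
    have : ((ZMod.finEquiv p).toEquiv.symm x : Fin p).val = x.val := by
      obtain ⟨q, rfl⟩ : ∃ q, p = q + 1 := ⟨p - 1, by have := hp.out.pos; omega⟩
      rfl
    rw [this]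
  rw [hrange]
  have hsum : ∏ i ∈ Finset.range p, (if i < p - k.val then (1 : ZMod p) else -1)
      = ∏ i ∈ Finset.range ((p - k.val) + k.val), (if i < p - k.val then (1 : ZMod p) else -1) := by
    rw [Nat.sub_add_cancel hk.le]
  rw [hsum, Finset.prod_range_add]
  rw [Finset.prod_congr rfl (g := fun _ => (1 : ZMod p)) (by
    intro i hi
    rw [Finset.mem_range] at hi
    rw [if_pos (by omega)])]
  rw [Finset.prod_congr (s₁ := Finset.range k.val) rfl (g := fun _ => (-1 : ZMod p)) (by
    intro i hi
    rw [if_neg (by omega)])]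
  simp

lemma alt_sum (q : ℕ) : 2 * ∑ i ∈ Finset.range (2 * q + 1), (-1 : ℤ) ^ i * i = 2 * q := by
  induction q with
  | zero => simp
  | succ q ih =>
    rw [show 2 * (q + 1) + 1 = (2 * q + 1) + 1 + 1 by ring, Finset.sum_range_succ,
      Finset.sum_range_succ, mul_add, mul_add, ih]
    have h1 : (-1 : ℤ) ^ (2 * q + 1) = -1 := by rw [pow_succ, pow_mul]; simp
    have h2 : (-1 : ℤ) ^ (2 * q + 1 + 1) = 1 := by rw [pow_succ, h1]; simp
    rw [h1, h2]
    push_cast
    ring

lemma two_sum_w (hodd : p ≠ 2) : 2 * ∑ s : Perm (ZMod p), w p s + 1 = 0 := by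
  have hpz : NeZero p := ⟨hp.out.ne_zero⟩
  have hcast : ((p : ℕ) : ZMod p) = 0 := by simp
  rw [sum_w, Finset.sum_congr rfl (fun k _ => w_shift p k)]
  have hrange : (∑ k : ZMod p, (-1 : ZMod p) ^ k.val * k)
      = ∑ i ∈ Finset.range p, (-1 : ZMod p) ^ i * (i : ZMod p) := by
    rw [← Fin.sum_univ_eq_sum_range (fun i => (-1 : ZMod p) ^ i * (i : ZMod p)) p]
    refine Fintype.sum_equiv (ZMod.finEquiv p).toEquiv.symm _ _ ?_
    intro x
    have : ((ZMod.finEquiv p).toEquiv.symm x : Fin p).val = x.val := by
      obtain ⟨q, rfl⟩ : ∃ q, p = q + 1 := ⟨p - 1, by have := hp.out.pos; omega⟩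
      rfl
    rw [this]
    simp
  rw [hrange]
  obtain ⟨q, hq⟩ : ∃ q, p = 2 * q + 1 := by
    rcases hp.out.eq_two_or_odd' with h | h
    · exact absurd h hodd
    · obtain ⟨q, hq⟩ := h
      exact ⟨q, hq⟩
  have h := congrArg (fun z : ℤ => (z : ZMod p)) (alt_sum q)
  push_cast at h
  rw [← hq] at h
  rw [h]
  have h5 : ((2 * q + 1 : ℕ) : ZMod p) = 0 := by rw [← hq]; exact hcast
  push_cast at h5
  exact h5

end Pool.Agent.W_MP_cf7092_nt
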